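import Pool.Agent.Q283.MS.Fin

/-!
# The two families
-/

set_option autoImplicit false
set_option linter.unusedSectionVars false
set_option linter.unusedVariables false

open scoped Classical

namespace Q283.MS

open Filter Topology NumberField WeierstrassCurve
open Pool.Agent.Y703.CT (Cls NoSplit Base WD EQ)
open Q283.TQ (Bs CN GoodQ AllQ okQ cQ clsN clsN_eq bs_mul cls_iff main_Q)
open Q283.MC (tw Rd RankZero tf cf_bs mod_prod comb Ind ind_of deg_dvd rd_of exists_seq)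

/-- the `3`-primary part of the Tate-Shafarevich group of `y² + N y = x³` over `F` is killed by
`3 ^ k` -/
def Kl (k N : ℕ) (F : Type) [Field F] [NumberField F] : Prop :=
  ∀ (n : ℕ) (x : Pool.Agent.TH841.NF.D.Sha ((EQ (WD (N : ℤ))).baseChange F)),
    3 ^ n • x = 0 → 3 ^ k • x = 0

/-- **Prime twists over all fields generated by cube roots of the `d_j`.** -/
theorem g2d {N : ℕ} (hN : Bs N) {k : ℕ} (d : Fin k → ℕ) (hd0 : ∀ j, d j ≠ 0)
    (hd9 : ∀ j, d j % 9 = 1) (hd3 : ∀ (j : Fin k) (p : ℕ), p.Prime → p ∣ d j → p % 3 = 1) :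
    ∃ m : ℕ, Squarefree m ∧ (∀ p ∈ m.primeFactors, p % 9 = 1 ∧ ¬ p ∣ N) ∧
      ∃ δ : ℝ, 0 < δ ∧ ∃ S : ℕ → Prop,
        Tendsto (fun X : ℕ => (CN S X : ℝ) / (CN (fun _ => True) X : ℝ)) atTop (𝓝 δ) ∧
        ∀ l : ℕ, l.Prime → l % 3 = 1 → S l →
          ¬ l ∣ N * m ∧ ∃ D c : (Fin k → ZMod 3) → ℕ,
            (∀ e, tw (N * m * l) d e = D e * (c e) ^ 3) ∧ (∀ e, Cls (D e)) ∧
              ∀ e, NoSplit (D e) := by
  have hR0 : ∀ e : Fin k → ZMod 3, ∏ j, d j ^ (e j).val ≠ 0 := fun e =>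
    Finset.prod_ne_zero_iff.2 fun j _ => pow_ne_zero _ (hd0 j)
  have hR3 : ∀ (e : Fin k → ZMod 3) (p : ℕ), p.Prime → p ∣ ∏ j, d j ^ (e j).val →
      p % 3 = 1 := by
    intro e p hp h
    obtain ⟨j, -, hj⟩ := (hp.prime.dvd_finsetProd_iff _).1 h
    exact hd3 j p hp (hp.dvd_of_dvd_pow hj)
  choose D c hDc hB h9 hdvd using fun e => cf_bs hN (hR0 e) (hR3 e)
  have hD9 : ∀ e, D e % 9 = N % 9 := by
    intro e
    rw [h9 e, Nat.mul_mod, mod_prod _ _ _ hd9, mul_one, Nat.mod_mod]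
  -- the family
  let E := Fintype.equivFin (Fin k → ZMod 3)
  let D0 : Fin (Fintype.card (Fin k → ZMod 3)) → ℕ := fun i => D (E.symm i)
  have hB0 : ∀ i, Bs (D0 i) := fun i => hB _
  have hcard : 0 < Fintype.card (Fin k → ZMod 3) := Fintype.card_pos
  obtain ⟨m, h1, hm9, h2, h3, h4, h5⟩ := Q283.TE.common D0 hB0 hcard
  have hcl : 0 < clsN (fun i => D0 i * m) := by
    rw [Q283.TE.clsN_mul D0 hm9]
    have hNn := Q283.TQ.clsN_pos (fun _ : Fin 1 => N) (by norm_num)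
    have : clsN D0 = clsN (fun _ : Fin 1 => N) := by
      unfold clsN
      congr 1
      refine Finset.filter_congr fun r _ => ?_
      have e1 : ∀ i, (D0 i * r) % 9 = (N * r) % 9 := by
        intro i
        rw [Nat.mul_mod, hD9, ← Nat.mul_mod]
      simp only [e1]
      constructor
      · intro h _
        exact h ⟨0, hcard⟩
      · intro h _
        exact h 0
    rw [this]
    exact hNn
  have hlim := comb (fun i => D0 i * m) h4 hcl
  refine ⟨m, h1, fun p hp => ⟨(h3 p hp).1, fun hpN => ?_⟩, _, ?_, _, hlim, ?_⟩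
  · -- `D 0 = N` up to a cube; a prime dividing `N` divides some `D e`
    have hpp := Nat.prime_of_mem_primeFactors hp
    have h6 := hDc 0
    have hz : ∏ j, d j ^ ((0 : Fin k → ZMod 3) j).val = 1 := by
      refine Finset.prod_eq_one fun j _ => ?_
      rw [Pi.zero_apply, ZMod.val_zero, pow_zero]
    rw [hz, mul_one] at h6
    have hc1 : c 0 = 1 := by
      by_contra hc1
      obtain ⟨q, hq, hqc⟩ := Nat.exists_prime_and_dvd hc1
      exact hN.1.2.2 q hq (by
        rw [h6]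
        exact (pow_dvd_pow_of_dvd hqc 3).mul_left _)
    rw [hc1, one_pow, mul_one] at h6
    refine (h3 p hp).2 (E 0) ?_
    show p ∣ D (E.symm (E 0))
    rw [Equiv.symm_apply_apply, ← h6]
    exact hpN
  · have : (0 : ℝ) < clsN (fun i => D0 i * m) := by exact_mod_cast hcl
    positivity
  · intro l hl hl1 hS
    have hall : ∀ e, ¬ l ∣ D e * m ∧ (D e * m * l) % 9 ≠ 1 ∧ (D e * m * l) % 9 ≠ 8 ∧
        NoSplit (D e * m * l) := by
      intro e
      have := hS (E e)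
      simp only [D0, Equiv.symm_apply_apply] at this
      exact this
    have hBm : ∀ e, Bs (D e * m) := by
      intro e
      have := h4 (E e)
      simp only [D0, Equiv.symm_apply_apply] at this
      exact this
    refine ⟨?_, fun e => D e * m * l, c, fun e => ?_, fun e => ?_, fun e => (hall e).2.2.2⟩
    · have h6 := hDc 0
      have hz : ∏ j, d j ^ ((0 : Fin k → ZMod 3) j).val = 1 := by
        refine Finset.prod_eq_one fun j _ => ?_
        rw [Pi.zero_apply, ZMod.val_zero, pow_zero]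
      rw [hz, mul_one] at h6
      have hc1 : c 0 = 1 := by
        by_contra hc1
        obtain ⟨q, hq, hqc⟩ := Nat.exists_prime_and_dvd hc1
        exact hN.1.2.2 q hq (by
          rw [h6]
          exact (pow_dvd_pow_of_dvd hqc 3).mul_left _)
      rw [hc1, one_pow, mul_one] at h6
      rw [h6]
      exact (hall 0).1
    · unfold tw
      have := hDc e
      calc N * m * l * ∏ j, d j ^ (e j).val = (N * ∏ j, d j ^ (e j).val) * m * l := by ring
        _ = D e * m * l * c e ^ 3 := by rw [this]; ring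
    · obtain ⟨a1, a2, a3, a4⟩ := hall e
      exact (cls_iff (bs_mul (hBm e) hl hl1 a1)).2 ⟨a2, a3⟩

/-- the towers -/
theorem towersSha {D : ℕ} (hD : Cls D) (hS : NoSplit D) (B : ℕ → ℕ) :
    ∃ M : ℕ → ℕ, (∀ j, B j < M j ∧ 1 < M j ∧ Squarefree (M j) ∧
        (∀ p : ℕ, p.Prime → p ∣ M j → p % 3 = 1) ∧ Nat.Coprime D (M j)) ∧
      (∀ i j, i ≠ j → Nat.Coprime (M i) (M j)) ∧
      ∀ (k : ℕ) (F : Type) [Field F] [NumberField F] (θ : Fin k → F),
        (∀ j, θ j ^ 3 = (M j : F)) →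
        IntermediateField.adjoin ℚ ({x : F | x ^ 3 = 1} ∪ Set.range θ) = ⊤ →
        3 ^ k ∣ Module.finrank ℚ F ∧ RankZero D (fun j : Fin k => M j) F ∧ Kl k D F := by
  obtain ⟨M, h1, h2, h3⟩ := exists_seq hD hS B
  refine ⟨M, h1, h2, fun k F _ _ θ hθ hgen => ?_⟩
  have hind : Ind (fun j : Fin k => M j) := ind_of (fun j => (h1 j).2.1) (fun j => (h1 j).2.2.1)
    fun i j hij => h2 i j fun h => hij (Fin.ext h)
  obtain ⟨r, hr⟩ := rd_of hθ hind hgen
  refine ⟨deg_dvd hθ hind, ?_, ?_⟩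
  · exact tf hr hD.1.1 (fun j => hind.ne_zero j) (D := tw D fun j : Fin k => M j) (c := fun _ => 1)
      (fun e => by rw [one_pow, mul_one]) (fun e => (h3 k e).1) fun e => (h3 k e).2
  · intro n x hx
    exact sha_all hθ hgen hD.1.1 (fun j => hind.ne_zero j) (D := tw D fun j : Fin k => M j)
      (c := fun _ => 1) (fun e => by rw [one_pow, mul_one]) (fun e => (h3 k e).1)
      (fun e => (h3 k e).2) n x hx

/-- the prime twists -/
theorem primesSha {N : ℕ} (hN : Bs N) {k : ℕ} (d : Fin k → ℕ) (hd0 : ∀ j, d j ≠ 0)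
    (hd9 : ∀ j, d j % 9 = 1) (hd3 : ∀ (j : Fin k) (p : ℕ), p.Prime → p ∣ d j → p % 3 = 1)
    (hind : Ind d) :
    ∃ m : ℕ, Squarefree m ∧ (∀ p ∈ m.primeFactors, p % 9 = 1 ∧ ¬ p ∣ N) ∧
      ∃ δ : ℝ, 0 < δ ∧ ∃ S : ℕ → Prop,
        Tendsto (fun X : ℕ => (CN S X : ℝ) / (CN (fun _ => True) X : ℝ)) atTop (𝓝 δ) ∧
        ∀ l : ℕ, l.Prime → l % 3 = 1 → S l →
          ¬ l ∣ N * m ∧ ∀ (F : Type) [Field F] [NumberField F] (θ : Fin k → F),
            (∀ j, θ j ^ 3 = (d j : F)) →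
            IntermediateField.adjoin ℚ ({x : F | x ^ 3 = 1} ∪ Set.range θ) = ⊤ →
            3 ^ k ∣ Module.finrank ℚ F ∧ RankZero (N * m * l) d F ∧ Kl k (N * m * l) F := by
  obtain ⟨m, h1, h2, δ, h3, S, h4, h5⟩ := g2d hN d hd0 hd9 hd3
  refine ⟨m, h1, h2, δ, h3, S, h4, fun l hl hl1 hS => ?_⟩
  obtain ⟨h6, D, c, h7, h8, h9⟩ := h5 l hl hl1 hS
  have hm0 : m ≠ 0 := fun h => by
    rw [h] at h1
    exact not_squarefree_zero h1
  have h0 : N * m * l ≠ 0 := mul_ne_zero (mul_ne_zero hN.ne_zero hm0) hl.ne_zero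
  refine ⟨h6, fun F _ _ θ hθ hgen => ⟨deg_dvd hθ hind, ?_, ?_⟩⟩
  · obtain ⟨r, hr⟩ := rd_of hθ hind hgen
    exact tf hr h0 hd0 h7 h8 h9
  · intro n x hx
    exact sha_all hθ hgen h0 hd0 h7 h8 h9 n x hx

end Q283.MS
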