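import Pool.Agent.Q283.MS.Core

/-!
# The Tate-Shafarevich group over a field generated by cube roots
-/

set_option autoImplicit false
set_option linter.unusedSectionVars false
set_option linter.unusedVariables false
set_option linter.style.haveILetI false

open scoped Classical

namespace Q283.MS

open WeierstrassCurve NumberField
open Pool.Agent.Y703.CT
open Pool.Agent.Y715.T.Gi Pool.Agent.Y715.T.Nr Pool.Agent.Y715.T.Df Pool.Agent.Y715.T.Ell
open Pool.Agent.Y692.CT (PD ac Ph ac_mul ac_one rs rs_apply rs_hom rs_mul rs_ex rs_cont)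
open Pool.Agent.TH841.NF (Sc Fx cF cF_apply e_cF cF_mul cQ cQ_fx cF_cQ tr tr_act tr_coc tr_cob tr_cQ
  any_surj tm tm_inj sc_any emb_p coc_fin)
open Q283.MC (Gam ex_c ip_inj ip3 inv_app ip_val)

theorem scN {F : Type} [Field F] [NumberField F] (N : ℤ) :
    Sc (algebraMap ℚ F) 1 (EQ (WD N)) ((EQ (WD N)).baseChange F) := by
  refine ⟨one_ne_zero, ?_, ?_, ?_, ?_, ?_⟩ <;> simp [WeierstrassCurve.baseChange]

theorem loc_F {F : Type} [Field F] [NumberField F] (N : ℤ) (e : AlgebraicClosure F ≃+* QB)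
    {f : Pool.Agent.TH841.SH.D.Coch ((EQ (WD N)).baseChange F)}
    (hf : Pool.Agent.TH841.NF.D.IsShaCoc ((EQ (WD N)).baseChange F) f) (p : ℕ) [Fact p.Prime]
    (ι : QB →ₐ[ℚ] PadicAlgCl p) :
    ∃ R : PD N (PadicAlgCl p), ∀ (τ : Au p) (σ : Gam), Fx e σ →
      (lh τ).comp ι = ι.comp σ.toAlgHom →
      ac N ι (tr (scN N) e f σ) = ac N (lh τ) R - R := emb_p (scN N) e hf p ι

/-- a cocycle on `H` that vanishes on the elements that fix `ω` -/
theorem quadH {D : ℤ} {i₀ : QB} (hi : i₀ ^ 2 + i₀ + 1 = 0) (H : Subgroup Gam) (g : Gam → PD D QB)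
    (hg : ∀ σ ∈ H, ∀ τ ∈ H, g (σ * τ) = g σ + ac D σ.toAlgHom (g τ))
    (h0 : ∀ σ ∈ H, σ i₀ = i₀ → g σ = 0) :
    ∃ Q : PD D QB, ∀ σ ∈ H, 2 • g σ = ac D σ.toAlgHom Q - Q := by
  have hne : ∀ σ : Gam, σ i₀ = i₀ ∨ σ i₀ = -1 - i₀ := by
    intro σ
    have h1 : (σ i₀) ^ 2 + σ i₀ + 1 = 0 := by
      rw [← map_pow, ← map_add, ← map_one σ, ← map_add, hi, map_zero]
    have h2 : (σ i₀ - i₀) * (σ i₀ - (-1 - i₀)) = 0 := by linear_combination h1 - hi
    rcases mul_eq_zero.1 h2 with h3 | h3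
    · exact Or.inl (sub_eq_zero.1 h3)
    · exact Or.inr (sub_eq_zero.1 h3)
  by_cases hcase : ∃ c ∈ H, c i₀ = -1 - i₀
  swap
  · push Not at hcase
    refine ⟨0, fun σ hσ => ?_⟩
    rw [h0 σ hσ ((hne σ).resolve_right (hcase σ hσ)), smul_zero, map_zero, sub_zero]
  obtain ⟨c, hcH, hc⟩ := hcase
  have hconj : ∀ σ : Gam, σ i₀ = -1 - i₀ → ∀ τ : Gam, τ i₀ = -1 - i₀ → (σ * τ) i₀ = i₀ := by
    intro σ hσ τ hτ
    rw [AlgEquiv.mul_apply, hτ, map_sub, map_neg, map_one, hσ]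
    ring
  have hval : ∀ σ ∈ H, σ i₀ = -1 - i₀ → g σ = g c := by
    intro σ hσH hσ
    have h1 : g (c * (c⁻¹ * σ)) = g c + ac D c.toAlgHom (g (c⁻¹ * σ)) :=
      hg _ hcH _ (mul_mem (inv_mem hcH) hσH)
    have h2 : (c⁻¹ * σ) i₀ = i₀ := by
      apply c.injective
      rw [AlgEquiv.mul_apply]
      have h3 : c (c⁻¹ (σ i₀)) = σ i₀ := c.apply_symm_apply _
      rw [h3, hσ, hc]
    rw [mul_inv_cancel_left, h0 _ (mul_mem (inv_mem hcH) hσH) h2, map_zero, add_zero] at h1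
    exact h1
  refine ⟨-g c, fun σ hσH => ?_⟩
  rcases hne σ with h1 | h1
  · have h2 : g (σ * c) = ac D σ.toAlgHom (g c) := by rw [hg _ hσH _ hcH, h0 σ hσH h1, zero_add]
    have h3 : g (σ * c) = g c := by
      apply hval _ (mul_mem hσH hcH)
      rw [AlgEquiv.mul_apply, hc, map_sub, map_neg, map_one, h1]
    rw [h0 σ hσH h1, smul_zero, map_neg, ← h2, h3]
    abel
  · have h2 : g σ + ac D σ.toAlgHom (g σ) = 0 := by
      rw [← hg _ hσH _ hσH, h0 _ (mul_mem hσH hσH) (hconj σ h1 σ h1)]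
    rw [hval σ hσH h1] at h2 ⊢
    rw [map_neg]
    have h3 : ac D σ.toAlgHom (g c) = -g c := by
      rw [eq_neg_iff_add_eq_zero, add_comm]
      exact h2
    rw [h3]
    abel

/-- the stabilizer of the field -/
noncomputable def HF {F : Type} [Field F] (e : AlgebraicClosure F ≃+* QB) : Subgroup Gam where
  carrier := {σ | Fx e σ}
  one_mem' := fun x => rfl
  mul_mem' := fun {σ τ} hσ hτ x => (congrArg σ (hτ x)).trans (hσ x)
  inv_mem' := fun {σ} hσ x => inv_app (hσ x)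

theorem mem_HF {F : Type} [Field F] (e : AlgebraicClosure F ≃+* QB) {σ : Gam} :
    σ ∈ HF e ↔ Fx e σ := Iff.rfl

/-- **The Tate-Shafarevich group.** -/
theorem sha_kill {F : Type} [Field F] [NumberField F] {k : ℕ} {d : Fin k → ℕ} {t : Fin k → F}
    (hcube : ∀ j, t j ^ 3 = (d j : F))
    (hgen : IntermediateField.adjoin ℚ ({x : F | x ^ 3 = 1} ∪ Set.range t) = ⊤)
    {N : ℕ} (hN : N ≠ 0) (hd : ∀ j, d j ≠ 0)
    (hS : ∀ (i₀ : QB) (hi : i₀ ^ 2 + i₀ + 1 = 0) (ε : Fin k → ZMod 3) (v : QB)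
      (c : GK i₀ → ZMod 3), v ^ 3 = ((N * ∏ j, d j ^ (ε j).val : ℕ) : QB) →
      (∀ σ : GK i₀, σ v = i₀ ^ (-c σ).val * v) → ShK hi c)
    (n : ℕ) (x : Pool.Agent.TH841.NF.D.Sha ((EQ (WD (N : ℤ))).baseChange F))
    (hx : 3 ^ n • x = 0) : 3 ^ k • x = 0 := by
  obtain ⟨i₀, hi⟩ : ∃ i₀ : QB, i₀ ^ 2 + i₀ + 1 = 0 := by
    obtain ⟨z, hz⟩ := IsAlgClosed.exists_pow_nat_eq (-3 : QB) (n := 2) (by norm_num)
    refine ⟨(z - 1) / 2, ?_⟩
    linear_combination (1 / 4 : QB) * hz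
  obtain ⟨u, hu⟩ := IsAlgClosed.exists_pow_nat_eq (((N : ℤ)) : QB) (n := 3) (by norm_num)
  have hun : u ^ 3 = ((N : ℕ) : QB) := by rw [hu]; push_cast; rfl
  have hDZ : ((N : ℕ) : ℤ) ≠ 0 := by exact_mod_cast hN
  have hN0 : ((N : ℕ) : QB) ≠ 0 := by exact_mod_cast hN
  have hu0 : u ≠ 0 := by
    rintro rfl
    rw [zero_pow (by norm_num)] at hun
    exact hN0 hun.symm
  obtain ⟨e⟩ : Nonempty (AlgebraicClosure F ≃+* QB) := by
    have h1 : Algebra.IsAlgebraic ℚ (AlgebraicClosure F) := Algebra.IsAlgebraic.trans ℚ F _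
    have h2 : IsAlgClosure ℚ (AlgebraicClosure F) := ⟨inferInstance, h1⟩
    exact ⟨(IsAlgClosure.equiv ℚ (AlgebraicClosure F) (AlgebraicClosure ℚ)).toRingEquiv⟩
  let s : Fin k → QB := fun j => e (algebraMap F _ (t j))
  have hs3 : ∀ j, s j ^ 3 = ((d j : ℕ) : QB) := by
    intro j
    show (e (algebraMap F _ (t j))) ^ 3 = _
    rw [← map_pow, ← map_pow, hcube, map_natCast, map_natCast]
  have hs0 : ∀ j, s j ≠ 0 := by
    intro j h
    have h1 := hs3 j
    rw [h, zero_pow (by norm_num)] at h1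
    exact hd j (by exact_mod_cast h1.symm)
  -- the characters
  have hch : ∀ (y : QB) (m : ℕ), y ^ 3 = (m : QB) →
      ∃ c : GK i₀ → ZMod 3, ∀ σ : GK i₀, σ y = i₀ ^ (-c σ).val * y := by
    intro y m hy
    have h1 : ∀ σ : GK i₀, ∃ c : ZMod 3, σ y = i₀ ^ (-c).val * y := by
      intro σ
      obtain ⟨c, hc⟩ := ex_c hi (σ := rs σ) m hy
      exact ⟨-c, by rw [neg_neg]; exact hc⟩
    choose c hc using h1
    exact ⟨c, hc⟩
  obtain ⟨b, hb⟩ := hch u N hun
  choose a' ha' using fun j => hch (s j) (d j) (hs3 j)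
  let a : GK i₀ → Fin k → ZMod 3 := fun σ j => a' j σ
  have hsa : ∀ (σ : GK i₀) (j), σ (s j) = i₀ ^ (-a σ j).val * s j := fun σ j => ha' j σ
  have hfix : ∀ σ : GK i₀, σ i₀ = i₀ := gk_fix
  have ha : ∀ σ τ, a (σ * τ) = a σ + a τ := by
    intro σ τ
    funext j
    have h1 := hsa (σ * τ) j
    rw [AlgEquiv.mul_apply, hsa τ j, map_mul, map_pow, hfix, hsa σ j, ← mul_assoc,
      ← ip_val hi] at h1
    have h2 := ip_inj hi (hs0 j) h1
    rw [Pi.add_apply]
    linear_combination h2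
  have ha0 : ∀ σ : GK i₀, a σ = 0 ↔ Fx e (rs σ) := by
    intro σ
    constructor
    · intro h0 y
      have hsj : ∀ j, σ (s j) = s j := by
        intro j
        rw [hsa, h0, Pi.zero_apply, neg_zero, ZMod.val_zero, pow_zero, one_mul]
      have hy : y ∈ (⊤ : IntermediateField ℚ F) := trivial
      rw [← hgen] at hy
      show σ (e (algebraMap F _ y)) = e (algebraMap F _ y)
      refine IntermediateField.adjoin_induction ℚ
        (p := fun y _ => σ (e (algebraMap F _ y)) = e (algebraMap F _ y)) ?_ ?_ ?_ ?_ ?_ hy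
      · rintro y (hy | ⟨j, rfl⟩)
        · have hy3 : y ^ 3 = 1 := hy
          obtain ⟨z, hz⟩ : ∃ z, z = e (algebraMap F _ y) := ⟨_, rfl⟩
          have h5 : z ^ 3 = 1 := by rw [hz, ← map_pow, ← map_pow, hy3, map_one, map_one]
          rw [← hz]
          have h6 : (z - 1) * ((z - i₀) * (z - i₀ ^ 2)) = 0 := by
            linear_combination h5 + (-z ^ 2 + z) * hi + (z - 1) * ip3 hi
          rcases mul_eq_zero.1 h6 with h7 | h7
          · rw [sub_eq_zero.1 h7, map_one]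
          · rcases mul_eq_zero.1 h7 with h8 | h8
            · rw [sub_eq_zero.1 h8, hfix]
            · rw [sub_eq_zero.1 h8, map_pow, hfix]
        · exact hsj j
      · intro q
        have h1 : e (algebraMap F _ (algebraMap ℚ F q)) = algebraMap ℚ QB q :=
          DFunLike.congr_fun (Subsingleton.elim (((e : AlgebraicClosure F →+* QB).comp
            (algebraMap F (AlgebraicClosure F))).comp (algebraMap ℚ F)) (algebraMap ℚ QB)) q
        rw [h1]
        exact (rs σ).commutes q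
      · intro x y _ _ hx hy
        rw [map_add, map_add, map_add, hx, hy]
      · intro x _ hx
        rw [map_inv₀, map_inv₀, map_inv₀, hx]
      · intro x y _ _ hx hy
        rw [map_mul, map_mul, map_mul, hx, hy]
    · intro h0
      funext j
      have h1 : σ (s j) = s j := h0 (t j)
      rw [hsa] at h1
      have h2 : i₀ ^ (-a σ j).val * s j = i₀ ^ (0 : ZMod 3).val * s j := by
        rw [h1, ZMod.val_zero, pow_zero, one_mul]
      exact neg_eq_zero.1 (ip_inj hi (hs0 j) h2)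
  -- the groups of all twists
  have hSh : ∀ ε : Fin k → ZMod 3, ShK hi (fun σ => dt ε (a σ) + b σ) := by
    intro ε
    refine hS i₀ hi ε (u * ∏ j, s j ^ (ε j).val) _ ?_ ?_
    · rw [mul_pow, hun, ← Finset.prod_pow]
      push_cast
      congr 1
      refine Finset.prod_congr rfl fun j _ => ?_
      rw [← pow_mul, mul_comm, pow_mul, hs3]
    · intro σ
      have h1 : ∀ T : Finset (Fin k), σ (∏ j ∈ T, s j ^ (ε j).val) =
          i₀ ^ (-∑ j ∈ T, ε j * a σ j).val * ∏ j ∈ T, s j ^ (ε j).val := by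
        intro T
        induction T using Finset.induction_on with
        | empty =>
          rw [Finset.prod_empty, Finset.sum_empty, neg_zero, ZMod.val_zero, pow_zero, map_one,
            one_mul]
        | insert j T hj ih =>
          rw [Finset.prod_insert hj, Finset.sum_insert hj, map_mul, map_pow, hsa, ih, mul_pow,
            ← pow_mul, mul_comm (-a σ j).val, pow_mul, ← pow_mul, mul_comm (ε j).val, neg_add,
            ip_val hi]
          have h3 : i₀ ^ ((-a σ j).val * (ε j).val) = i₀ ^ (-(ε j * a σ j)).val := by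
            have h4 : -(ε j * a σ j) = (-a σ j) * ε j := by ring
            rw [h4, ZMod.val_mul]
            exact pow_eq_pow_mod _ (ip3 hi)
          rw [h3]
          ring
      have h2 := h1 Finset.univ
      rw [map_mul, hb, h2]
      have h3 : -(dt ε (a σ) + b σ) = -b σ + -∑ j, ε j * a σ j := by
        unfold dt
        ring
      rw [h3, ip_val hi]
      ring
  -- the cocycle
  obtain ⟨f, rfl⟩ := QuotientAddGroup.mk_surjective x
  have hx1 : (QuotientAddGroup.mk ((3 ^ n : ℕ) • f) :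
      Pool.Agent.TH841.NF.D.shaCoc ((EQ (WD (N : ℤ))).baseChange F) ⧸
        (Pool.Agent.TH841.SH.D.cob ((EQ (WD (N : ℤ))).baseChange F)).addSubgroupOf
          (Pool.Agent.TH841.NF.D.shaCoc ((EQ (WD (N : ℤ))).baseChange F))) = 0 := hx
  rw [QuotientAddGroup.eq_zero_iff, AddSubgroup.mem_addSubgroupOf] at hx1
  obtain ⟨P, hP⟩ := hx1
  have hcm := f.2.1
  have hP' : ∀ σ, 3 ^ n • f.1 σ =
      Pool.Agent.TH841.SH.D.act ((EQ (WD (N : ℤ))).baseChange F) σ.toAlgHom P - P := hP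
  let hW := scN (F := F) (N : ℤ)
  let S := sc_any hW (e : AlgebraicClosure F →+* QB)
  let g : Gam → PD N QB := fun σ => tr hW e f.1 σ
  have hgm : ∀ σ ∈ HF e, ∀ τ ∈ HF e, g (σ * τ) = g σ + ac N σ.toAlgHom (g τ) :=
    fun σ hσ τ hτ => tr_coc hW e hcm hσ hτ
  let P1 : PD N QB := tm S P
  have hgn : ∀ σ ∈ HF e, 3 ^ n • g σ = ac N σ.toAlgHom P1 - P1 := by
    intro σ hσ
    have h1 : (3 ^ n : ℕ) • (tr hW e f.1 σ) = tm S ((3 ^ n : ℕ) • f.1 (cF e σ)) :=
      (map_nsmul (tm S) _ _).symm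
    refine h1.trans ?_
    rw [hP', map_sub]
    have h2 := tr_act hW e hσ P
    exact congrArg (fun z => z - tm S P) h2
  let f' : GK i₀ → PD N QB := fun σ => g (rs σ)
  have c1 : ∀ σ τ, a σ = 0 → a τ = 0 → f' (σ * τ) = f' σ + ac N (gh σ) (f' τ) := by
    intro σ τ hσ hτ
    show g (rs (σ * τ)) = g (rs σ) + ac N (rs σ).toAlgHom (g (rs τ))
    rw [rs_mul, hgm _ ((ha0 σ).1 hσ) _ ((ha0 τ).1 hτ)]
  have c2 : {σ : GK i₀ | a σ = 0 ∧ f' σ = 0} ∈ nhds (1 : GK i₀) := by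
    obtain ⟨T, hTf⟩ := coc_fin hcm
    have hst : ∀ y : QB, {σ : GK i₀ | σ y = y} ∈ nhds (1 : GK i₀) := by
      intro y
      exact (stabilizer_isOpen_of_isIntegral (K := KK i₀) y).mem_nhds
        (MulAction.stabilizer (GK i₀) y).one_mem
    have h1 : (⋂ x ∈ T, {σ : GK i₀ | σ (e x) = e x}) ∈ nhds (1 : GK i₀) := by
      rw [Filter.biInter_finset_mem]
      exact fun x _ => hst _
    have h1' : (⋂ j : Fin k, {σ : GK i₀ | σ (s j) = s j}) ∈ nhds (1 : GK i₀) :=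
      Filter.iInter_mem.2 fun j => hst _
    refine Filter.mem_of_superset (Filter.inter_mem h1' h1) ?_
    rintro σ ⟨h2, h4⟩
    have h5 : a σ = 0 := by
      funext j
      have h6 : σ (s j) = s j := Set.mem_iInter.1 h2 j
      rw [hsa] at h6
      have h7 : i₀ ^ (-a σ j).val * s j = i₀ ^ (0 : ZMod 3).val * s j := by
        rw [h6, ZMod.val_zero, pow_zero, one_mul]
      exact neg_eq_zero.1 (ip_inj hi (hs0 j) h7)
    refine ⟨h5, ?_⟩
    have h6 : f.1 (cF e (rs σ)) = 0 := by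
      apply hTf
      intro x hx
      apply e.injective
      rw [e_cF e ((ha0 σ).1 h5)]
      have h7 := Set.mem_iInter.1 (Set.mem_iInter.1 h4 x) hx
      exact h7
    show tm S (f.1 (cF e (rs σ))) = 0
    rw [h6, map_zero]
  have c3 : ∀ (p : ℕ) [Fact p.Prime] (ι : QB →ₐ[ℚ] PadicAlgCl p), ∃ R : PD N (PadicAlgCl p),
      ∀ (τ : Au p) (σ : GK i₀), a σ = 0 → Cmp ι τ σ → ac N ι (f' σ) = ac N (lh τ) R - R := by
    intro p _ ι
    obtain ⟨R, hR⟩ := loc_F (N : ℤ) e f.2 p ι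
    exact ⟨R, fun τ σ hσ hcm => hR τ (rs σ) ((ha0 σ).1 hσ) (AlgHom.ext fun x => hcm x)⟩
  have c4 : ∃ P, ∀ σ, a σ = 0 → 3 ^ n • f' σ = ac N (gh σ) P - P :=
    ⟨P1, fun σ hσ => hgn _ ((ha0 σ).1 hσ)⟩
  obtain ⟨P2, hP2⟩ := core hi ha hDZ hu hb c1 c2 c3 hSh n c4
  -- from `F(ω)` to `F`
  obtain ⟨Q, hQ⟩ := quadH hi (HF e) (fun σ => 3 ^ k • g σ - (ac N σ.toAlgHom P2 - P2)) (by
    intro σ hσ τ hτ
    show 3 ^ k • g (σ * τ) - _ = 3 ^ k • g σ - _ + ac N σ.toAlgHom (3 ^ k • g τ - _)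
    rw [hgm σ hσ τ hτ, ac_mul, map_sub, map_sub, smul_add, map_nsmul]
    abel) (by
    intro σ hσ hσi
    obtain ⟨τ, rfl⟩ := rs_ex hσi
    have h1 := hP2 τ ((ha0 τ).2 hσ)
    show 3 ^ k • g (rs τ) - _ = 0
    rw [sub_eq_zero]
    exact h1)
  obtain ⟨m, hm2⟩ : ∃ m, 3 ^ n = 2 * m + 1 := by
    obtain ⟨m, h⟩ := (show Odd (3 ^ n) from Odd.pow (by decide))
    exact ⟨m, h⟩
  obtain ⟨Z, hZ⟩ : ∃ Z : PD N QB, ∀ σ ∈ HF e, 3 ^ k • g σ = ac N σ.toAlgHom Z - Z := by
    refine ⟨3 ^ k • P1 - m • (2 • P2 + Q), fun σ hσ => ?_⟩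
    have h7 : 2 • (3 ^ k • g σ - (ac N σ.toAlgHom P2 - P2)) = ac N σ.toAlgHom Q - Q := hQ σ hσ
    have h8 : 3 ^ n • (3 ^ k • g σ) = 3 ^ k • (ac N σ.toAlgHom P1 - P1) := by
      rw [← hgn σ hσ]
      exact smul_comm _ _ _
    rw [hm2] at h8
    generalize 3 ^ k • g σ = y at h7 h8 ⊢
    rw [map_sub, map_nsmul, map_nsmul, map_add, map_nsmul]
    have h9 : (2 * m + 1) • y = m • (2 • y) + y := by
      rw [add_smul, one_smul, mul_comm, mul_smul]
    have h10 : 2 • y = ac N σ.toAlgHom Q - Q + 2 • (ac N σ.toAlgHom P2 - P2) := by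
      rw [← h7, smul_sub]
      abel
    rw [h9, h10] at h8
    have h11 : y = 3 ^ k • (ac N σ.toAlgHom P1 - P1) -
        m • (ac N σ.toAlgHom Q - Q + 2 • (ac N σ.toAlgHom P2 - P2)) := by
      rw [← h8]
      abel
    rw [h11]
    simp only [smul_add, smul_sub]
    abel
  -- back to `F`
  obtain ⟨R, hR⟩ := any_surj hW e Z
  have hgoal : (QuotientAddGroup.mk ((3 ^ k : ℕ) • f) :
      Pool.Agent.TH841.NF.D.shaCoc ((EQ (WD (N : ℤ))).baseChange F) ⧸
        (Pool.Agent.TH841.SH.D.cob ((EQ (WD (N : ℤ))).baseChange F)).addSubgroupOf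
          (Pool.Agent.TH841.NF.D.shaCoc ((EQ (WD (N : ℤ))).baseChange F))) = 0 := by
    rw [QuotientAddGroup.eq_zero_iff, AddSubgroup.mem_addSubgroupOf]
    refine ⟨R, fun σ => ?_⟩
    apply tm_inj S
    have hσ : Fx e (cQ e σ) := cQ_fx e σ
    have h1 := hZ (cQ e σ) hσ
    have h2 : tm S (f.1 σ) = g (cQ e σ) := (tr_cQ hW e f.1 σ).symm
    have h3 : tm S ((3 ^ k : ℕ) • f.1 σ) = (3 ^ k : ℕ) • g (cQ e σ) := by
      rw [← h2]
      exact map_nsmul (tm S) _ _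
    refine Eq.trans h3 (h1.trans ?_)
    have h4 := tr_act hW e hσ R
    rw [cF_cQ] at h4
    have h5 : tm S (Pool.Agent.TH841.SH.D.act ((EQ (WD (N : ℤ))).baseChange F) σ.toAlgHom R - R) =
        tm S (Pool.Agent.TH841.SH.D.act ((EQ (WD (N : ℤ))).baseChange F) σ.toAlgHom R) -
          tm S R := map_sub _ _ _
    refine Eq.trans ?_ (Eq.trans (congrArg (fun z => z - tm S R) h4.symm) h5.symm)
    subst hR
    rfl
  exact hgoal

end Q283.MS
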