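import Pool.Agent.Q283.MC.Mw
import Pool.Agent.TH841.NF.Hom

/-!
# Corestriction with several cubic characters
-/

set_option autoImplicit false
set_option linter.unusedSectionVars false
set_option linter.unusedVariables false
set_option linter.style.haveILetI false

open scoped Classical

namespace Q283.MS

open WeierstrassCurve
open Pool.Agent.Y703.CT
open Pool.Agent.Y715.T.Gi Pool.Agent.Y715.T.Nr Pool.Agent.Y715.T.Df Pool.Agent.Y715.T.Ell
open Pool.Agent.Y692.CT (PD ac Ph Ph_some Ph_nons ac_some ac_Ph pt_ext it_some act_Ph act_Ph_loc)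
open Pool.Agent.Y155.CT (jj_jj pm_jj jj_add jj_zero jh jh_apply act_def)
open Pool.Agent.TH841.NF (cor cor_coc cor_cob cor_zero_of mem_H Loc exists_family sec sec_spec
  sec_one)

section jn

variable {D : ℤ} (hD : D ≠ 0) {L : Type} [Field L] [Algebra ℚ L] [CharZero L] {u : L}
  (hu : u ^ 3 = D) {I : L} (hI : I ^ 2 + I + 1 = 0)

/-- the powers of the automorphism `(x, y) ↦ (I x, y)` of `y² + D y = x³` -/
noncomputable def jN (c : ZMod 3) : PD D L →+ PD D L :=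
  (Ph hD hu).toAddMonoidHom.comp ((jh hI c).comp (Ph hD hu).symm.toAddMonoidHom)

theorem jN_Ph (c : ZMod 3) (P : Pt L) : jN hD hu hI c (Ph hD hu P) = Ph hD hu (jj hI c P) := by
  show Ph hD hu (jh hI c ((Ph hD hu).symm (Ph hD hu P))) = _
  rw [AddEquiv.symm_apply_apply]
  rfl

theorem Ph_surj (Q : PD D L) : ∃ P : Pt L, Q = Ph hD hu P :=
  ⟨_, ((Ph hD hu).apply_symm_apply Q).symm⟩

theorem jN_jN (c d : ZMod 3) (Q : PD D L) :
    jN hD hu hI c (jN hD hu hI d Q) = jN hD hu hI (c + d) Q := by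
  obtain ⟨P, rfl⟩ := Ph_surj hD hu Q
  rw [jN_Ph, jN_Ph, jN_Ph, jj_jj]

theorem jj_z (P : Pt L) : jj hI 0 P = P := by
  unfold jj
  rw [ZMod.val_zero]
  rfl

theorem jN_zero (Q : PD D L) : jN hD hu hI 0 Q = Q := by
  obtain ⟨P, rfl⟩ := Ph_surj hD hu Q
  rw [jN_Ph, jj_z]

theorem sum_jj {b : ZMod 3} (hb : b ≠ 0) (P : Pt L) : ∑ c : ZMod 3, jj hI (c * b) P = 0 := by
  have h1 : ∑ c : ZMod 3, jj hI c P = 0 := by
    have h2 : ∑ c : ZMod 3, jj hI c P = jj hI 0 P + jj hI 1 P + jj hI 2 P :=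
      Fin.sum_univ_three _
    rw [h2]
    have h3 : jj hI 1 P = im (isE L) hI P := rfl
    have h4 : jj hI 2 P = im (isE L) hI (im (isE L) hI P) := rfl
    rw [jj_z, h3, h4, im_im]
    abel
  rw [← h1]
  exact Fintype.sum_equiv (Equiv.mulRight₀ b hb) _ _ (fun c => rfl)

theorem sum_jN {b : ZMod 3} (hb : b ≠ 0) (Q : PD D L) :
    ∑ c : ZMod 3, jN hD hu hI (c * b) Q = 0 := by
  obtain ⟨P, rfl⟩ := Ph_surj hD hu Q
  simp only [jN_Ph]
  rw [← map_sum, sum_jj hI hb, map_zero]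

theorem jN_some (c : ZMod 3) {x y : L} (h : ((EQ (WD D)).baseChange L).toAffine.Nonsingular x y) :
    ∃ h' : ((EQ (WD D)).baseChange L).toAffine.Nonsingular (I ^ c.val * x) y,
      jN hD hu hI c (.some x y h) = .some (I ^ c.val * x) y h' := by
  obtain ⟨P, hP⟩ := Ph_surj hD hu (.some x y h)
  rcases P with _ | ⟨x0, y0, h0⟩
  · exfalso
    have h1 : (Affine.Point.some x y h : PD D L) = 0 := hP.trans (map_zero _)
    exact Affine.Point.some_ne_zero _ h1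
  · have h1 := hP
    rw [Ph_some, Affine.Point.some.injEq] at h1
    obtain ⟨rfl, rfl⟩ := h1
    have h2 := jN_Ph hD hu hI c (.some x0 y0 h0)
    obtain ⟨h3, e3⟩ := it_some hI c.val h0
    have e4 : jj hI c (.some x0 y0 h0) = .some (I ^ c.val * x0) y0 h3 := e3
    rw [e4, Ph_some, Ph_some] at h2
    have e1 : u ^ 2 * (I ^ c.val * x0) = I ^ c.val * (u ^ 2 * x0) := by ring
    have h5 := Ph_nons hD hu h3
    rw [e1] at h5
    refine ⟨h5, ?_⟩
    rw [h2, Affine.Point.some.injEq]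
    exact ⟨e1, rfl⟩

theorem ac_jN {L' : Type} [Field L'] [Algebra ℚ L'] [CharZero L'] (φ : L →ₐ[ℚ] L') {u' : L'}
    (hu' : u' ^ 3 = D) {I' : L'} (hI' : I' ^ 2 + I' + 1 = 0) (h : φ I = I') (c : ZMod 3)
    (Q : PD D L) : ac D φ (jN hD hu hI c Q) = jN hD hu' hI' c (ac D φ Q) := by
  rcases Q with _ | ⟨x, y, hn⟩
  · show ac D φ (jN hD hu hI c 0) = jN hD hu' hI' c (ac D φ 0)
    simp only [map_zero]
  · obtain ⟨h1, e1⟩ := jN_some hD hu hI c hn
    rw [e1, ac_some, ac_some]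
    obtain ⟨h2, e2⟩ := jN_some hD hu' hI' c ((Affine.baseChange_nonsingular (EQ (WD D))
      (f := φ) φ.injective ..).mpr hn)
    rw [e2, Affine.Point.some.injEq]
    exact ⟨by rw [map_mul, map_pow, h], rfl⟩

/-- the pairing -/
def dt {k : ℕ} (e v : Fin k → ZMod 3) : ZMod 3 := ∑ j, e j * v j

theorem dt_add {k : ℕ} (e v w : Fin k → ZMod 3) : dt e (v + w) = dt e v + dt e w := by
  unfold dt
  rw [← Finset.sum_add_distrib]
  exact Finset.sum_congr rfl fun j _ => by rw [Pi.add_apply, mul_add]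

theorem dt_zero {k : ℕ} (e : Fin k → ZMod 3) : dt e 0 = 0 := by
  unfold dt
  exact Finset.sum_eq_zero fun j _ => by rw [Pi.zero_apply, mul_zero]

theorem sum_dt {k : ℕ} {v : Fin k → ZMod 3} (hv : v ≠ 0) (Q : PD D L) :
    ∑ e : Fin k → ZMod 3, jN hD hu hI (dt e v) Q = 0 := by
  obtain ⟨i, hi⟩ := Function.ne_iff.1 hv
  rw [← (Equiv.funSplitAt i (ZMod 3)).symm.sum_comp]
  rw [Fintype.sum_prod_type_right]
  refine Finset.sum_eq_zero fun f _ => ?_
  have h1 : ∀ c : ZMod 3, dt ((Equiv.funSplitAt i (ZMod 3)).symm (c, f)) v =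
      c * v i + ∑ j : {j // j ≠ i}, f j * v j := by
    intro c
    unfold dt
    rw [← Finset.add_sum_erase _ _ (Finset.mem_univ i)]
    congr 1
    · congr 1
      simp
    · rw [Finset.sum_subtype (Finset.univ.erase i) (p := fun j => j ≠ i) (by simp)]
      refine Finset.sum_congr rfl fun j _ => ?_
      congr 1
      simp [Equiv.funSplitAt, Equiv.piSplitAt, j.2]
  simp only [h1]
  have h2 : ∀ c : ZMod 3, jN hD hu hI (c * v i + ∑ j : {j // j ≠ i}, f j * v j) Q =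
      jN hD hu hI (c * v i) (jN hD hu hI (∑ j : {j // j ≠ i}, f j * v j) Q) := by
    intro c
    rw [jN_jN]
  simp only [h2]
  exact sum_jN hD hu hI hi _

end jn

section core

variable {i₀ : QB} (hi : i₀ ^ 2 + i₀ + 1 = 0) {k : ℕ} {a : GK i₀ → Fin k → ZMod 3}
  (ha : ∀ σ τ, a (σ * τ) = a σ + a τ)
  {D : ℤ} (hD : D ≠ 0) {u : QB} (hu : u ^ 3 = D)

/-- the characters -/
noncomputable def chr : GK i₀ →* Multiplicative (Fin k → ZMod 3) where
  toFun σ := Multiplicative.ofAdd (a σ)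
  map_one' := by
    have h := ha 1 1
    rw [mul_one] at h
    rw [left_eq_add.1 h]
    rfl
  map_mul' σ τ := by
    rw [ha]
    rfl

/-- the kernel -/
noncomputable def HK : Subgroup (GK i₀) := (chr ha).ker

theorem mem_HK (σ : GK i₀) : σ ∈ HK ha ↔ a σ = 0 := by
  unfold HK
  rw [MonoidHom.mem_ker]
  exact Iff.rfl

instance : (HK ha).Normal := MonoidHom.normal_ker _

instance : (HK ha).FiniteIndex := by
  unfold HK
  have : Finite (Multiplicative (Fin k → ZMod 3)) := inferInstanceAs (Finite (Fin k → ZMod 3))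
  infer_instance

noncomputable instance : Fintype (GK i₀ ⧸ HK ha) := Subgroup.fintypeQuotientOfFiniteIndex

theorem ac_gh_one (P : PD D QB) : ac D (gh (1 : GK i₀)) P = P := by
  rcases P with _ | ⟨x, y, h⟩
  · exact map_zero _
  · rfl

theorem ac_gh_mul (σ τ : GK i₀) (P : PD D QB) :
    ac D (gh (σ * τ)) P = ac D (gh σ) (ac D (gh τ) P) :=
  (Pool.Agent.TH841.SH.act_act (EQ (WD D)) (gh τ) (gh σ) P).symm

theorem jN_gh (c : ZMod 3) (σ : GK i₀) (P : PD D QB) :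
    ac D (gh σ) (jN hD hu hi c P) = jN hD hu hi c (ac D (gh σ) P) :=
  ac_jN hD hu hi (gh σ) hu hi (gk_fix σ) c P

/-- the twisted actions -/
noncomputable def Ac (e : Fin k → ZMod 3) : GK i₀ →* AddMonoid.End (PD D QB) where
  toFun σ := (jN hD hu hi (dt e (a σ))).comp (ac D (gh σ))
  map_one' := by
    have h := ha 1 1
    rw [mul_one] at h
    ext P
    show jN hD hu hi (dt e (a 1)) (ac D (gh (1 : GK i₀)) P) = P
    rw [left_eq_add.1 h, dt_zero, jN_zero, ac_gh_one]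
  map_mul' σ τ := by
    ext P
    show jN hD hu hi (dt e (a (σ * τ))) (ac D (gh (σ * τ)) P) =
      jN hD hu hi (dt e (a σ)) (ac D (gh σ) (jN hD hu hi (dt e (a τ)) (ac D (gh τ) P)))
    rw [ac_gh_mul, jN_gh, jN_jN, ha, dt_add]

theorem Ac_apply (e : Fin k → ZMod 3) (σ : GK i₀) (P : PD D QB) :
    Ac hi ha hD hu e σ P = jN hD hu hi (dt e (a σ)) (ac D (gh σ) P) := rfl

theorem Ac_H (e : Fin k → ZMod 3) {σ : GK i₀} (h : a σ = 0) (P : PD D QB) :
    Ac hi ha hD hu e σ P = ac D (gh σ) P := by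
  rw [Ac_apply, h, dt_zero, jN_zero]

theorem one_H : ∀ h ∈ HK ha, (1 : GK i₀ →* ℤ) h = 1 := fun _ _ => rfl

/-- the corestriction -/
noncomputable def Co (f : GK i₀ → PD D QB) (e : Fin k → ZMod 3) (σ : GK i₀) : PD D QB :=
  cor (sec (HK ha)) (Ac hi ha hD hu e) (1 : GK i₀ →* ℤ) f σ

variable {f : GK i₀ → PD D QB}
  (hf : ∀ σ τ, a σ = 0 → a τ = 0 → f (σ * τ) = f σ + ac D (gh σ) (f τ))

include hf in
theorem hf' (e : Fin k → ZMod 3) :
    ∀ x ∈ HK ha, ∀ y ∈ HK ha, f (x * y) = f x + Ac hi ha hD hu e x (f y) := by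
  intro x hx y hy
  rw [mem_HK] at hx hy
  rw [Ac_H hi ha hD hu e hx]
  exact hf x y hx hy

include hf in
theorem Co_coc (e : Fin k → ZMod 3) (σ τ : GK i₀) :
    Co hi ha hD hu f e (σ * τ) = Co hi ha hD hu f e σ +
      jN hD hu hi (dt e (a σ)) (ac D (gh σ) (Co hi ha hD hu f e τ)) := by
  have h := cor_coc (sec_spec (HK ha)) (Ac hi ha hD hu e) (one_H ha)
    (hf' hi ha hD hu hf e) σ τ
  have h1 : (1 : GK i₀ →* ℤ) σ = 1 := rfl
  rw [h1, one_smul] at h
  exact h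

theorem Co_smul (n : ℕ) (e : Fin k → ZMod 3) (σ : GK i₀) :
    n • Co hi ha hD hu f e σ = Co hi ha hD hu (fun τ => n • f τ) e σ := by
  unfold Co cor
  rw [Finset.smul_sum]
  refine Finset.sum_congr rfl fun q _ => ?_
  rw [map_nsmul]
  exact smul_comm _ _ _

theorem Co_cob (n : ℕ) {P : PD D QB} (hP : ∀ σ, a σ = 0 → n • f σ = ac D (gh σ) P - P)
    (e : Fin k → ZMod 3) :
    ∃ Q, ∀ σ, n • Co hi ha hD hu f e σ =
      jN hD hu hi (dt e (a σ)) (ac D (gh σ) Q) - Q := by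
  refine ⟨∑ q : GK i₀ ⧸ HK ha, (1 : GK i₀ →* ℤ) (sec (HK ha) q) •
    Ac hi ha hD hu e (sec (HK ha) q) P, fun σ => ?_⟩
  rw [Co_smul]
  have h := cor_cob (sec_spec (HK ha)) (Ac hi ha hD hu e) (one_H ha) (f := fun τ => n • f τ) P
    (fun x hx => by
      rw [Ac_H hi ha hD hu e ((mem_HK ha x).1 hx)]
      exact hP x ((mem_HK ha x).1 hx)) σ
  have h1 : (1 : GK i₀ →* ℤ) σ = 1 := rfl
  rw [h1, one_smul] at h
  exact h

theorem Co_nhds (hnb : {σ : GK i₀ | a σ = 0 ∧ f σ = 0} ∈ nhds (1 : GK i₀))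
    (e : Fin k → ZMod 3) :
    {σ : GK i₀ | Co hi ha hD hu f e σ = 0} ∈ nhds (1 : GK i₀) := by
  have h1 : ∀ q : GK i₀ ⧸ HK ha, {σ : GK i₀ | a ((sec (HK ha) q)⁻¹ * σ * sec (HK ha) q) = 0 ∧
      f ((sec (HK ha) q)⁻¹ * σ * sec (HK ha) q) = 0} ∈ nhds (1 : GK i₀) := by
    intro q
    have hc : Continuous (fun σ : GK i₀ => (sec (HK ha) q)⁻¹ * σ * sec (HK ha) q) :=
      (continuous_const_mul _).mul_const _
    have h2 : Filter.Tendsto (fun σ : GK i₀ => (sec (HK ha) q)⁻¹ * σ * sec (HK ha) q)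
        (nhds (1 : GK i₀)) (nhds ((sec (HK ha) q)⁻¹ * 1 * sec (HK ha) q)) :=
      hc.continuousAt (x := (1 : GK i₀))
    rw [mul_one, inv_mul_cancel] at h2
    exact h2 hnb
  have h2 := (Filter.iInter_mem (f := nhds (1 : GK i₀))).2 h1
  refine Filter.mem_of_superset h2 fun σ hσ => ?_
  have hσ' := Set.mem_iInter.1 hσ
  have h4 : ∀ q : GK i₀ ⧸ HK ha, σ • q = q := by
    intro q
    have h5 : (sec (HK ha) q)⁻¹ * σ * sec (HK ha) q ∈ HK ha := (mem_HK ha _).2 (hσ' q).1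
    rw [mul_assoc, ← QuotientGroup.eq] at h5
    conv_lhs => rw [← sec_spec _ q]
    exact h5.symm.trans (sec_spec _ q)
  show Co hi ha hD hu f e σ = 0
  unfold Co
  apply cor_zero_of
  intro q
  rw [h4]
  exact (hσ' q).2

include hf in
theorem Co_lc (hnb : {σ : GK i₀ | a σ = 0 ∧ f σ = 0} ∈ nhds (1 : GK i₀))
    (e : Fin k → ZMod 3) : IsLocallyConstant (Co hi ha hD hu f e) := by
  rw [IsLocallyConstant.iff_eventually_eq]
  intro σ
  have hc : Continuous (fun τ : GK i₀ => σ⁻¹ * τ) := continuous_const_mul _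
  have h2 : Filter.Tendsto (fun τ : GK i₀ => σ⁻¹ * τ) (nhds σ) (nhds (σ⁻¹ * σ)) :=
    hc.continuousAt (x := σ)
  rw [inv_mul_cancel] at h2
  filter_upwards [h2 (Co_nhds hi ha hD hu hnb e)] with τ hτ
  have h3 : Co hi ha hD hu f e (σ⁻¹ * τ) = 0 := hτ
  have h4 := Co_coc hi ha hD hu hf e σ (σ⁻¹ * τ)
  rw [mul_inv_cancel_left, h3, map_zero, map_zero, add_zero] at h4
  exact h4

/-- the local data -/
noncomputable def LD (p : ℕ) [Fact p.Prime] :
    Loc (GK i₀) (PD D QB) (QB →ₐ[ℚ] PadicAlgCl p) (Au p) (PD D (PadicAlgCl p)) where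
  a :=
    { toFun := fun σ => ac D (gh σ)
      map_one' := by
        ext P
        exact ac_gh_one P
      map_mul' := fun σ τ => by
        ext P
        exact ac_gh_mul σ τ P }
  b :=
    { toFun := fun τ => ac D (lh τ)
      map_one' := by
        ext P
        rcases P with _ | ⟨x, y, h⟩
        · exact map_zero _
        · rfl
      map_mul' := fun σ τ => by
        ext P
        exact (Pool.Agent.TH841.SH.act_act (EQ (WD D)) (lh τ) (lh σ) P).symm }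
  lc τ j := (lh τ).comp j
  rc j g := j.comp (gh g)
  st j := ac D j
  lc_mul _ _ _ := rfl
  lc_one _ := rfl
  rc_mul _ _ _ := rfl
  rc_one _ := rfl
  comm _ _ _ := rfl
  st_l τ j x := (Pool.Agent.TH841.SH.act_act (EQ (WD D)) j (lh τ) x).symm
  st_r j g x := (Pool.Agent.TH841.SH.act_act (EQ (WD D)) (gh g) j x).symm

theorem jN_sum {L : Type} [Field L] [Algebra ℚ L] [CharZero L] {v : L} (hv : v ^ 3 = D) {I : L}
    (hI : I ^ 2 + I + 1 = 0) {ι : Type} (s : Finset ι) (c : ZMod 3) (g : ι → PD D L) :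
    jN hD hv hI c (∑ i ∈ s, g i) = ∑ i ∈ s, jN hD hv hI c (g i) := map_sum _ _ _

include hf in
theorem Co_loc (p : ℕ) [Fact p.Prime]
    (hloc : ∀ ι : QB →ₐ[ℚ] PadicAlgCl p, ∃ R : PD D (PadicAlgCl p), ∀ (τ : Au p) (σ : GK i₀),
      a σ = 0 → Cmp ι τ σ → ac D ι (f σ) = ac D (lh τ) R - R)
    (ι : QB →ₐ[ℚ] PadicAlgCl p) (hv : (ι u) ^ 3 = (D : PadicAlgCl p)) (e : Fin k → ZMod 3) :
    ∃ R : PD D (PadicAlgCl p), ∀ (τ : Au p) (σ : GK i₀), Cmp ι τ σ →
      ac D ι (Co hi ha hD hu f e σ) =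
        jN hD hv (iota_sq' hi ι) (dt e (a σ)) (ac D (lh τ) R) - R := by
  obtain ⟨P, hP⟩ := exists_family (LD (i₀ := i₀) (D := D) p) (H := HK ha) (f := f)
    (fun x hx y hy => hf x y ((mem_HK ha x).1 hx) ((mem_HK ha y).1 hy)) (fun j => by
      obtain ⟨R, hR⟩ := hloc j
      exact ⟨R, fun τ h hh e => hR τ h ((mem_HK ha h).1 hh) (fun x => DFunLike.congr_fun e x)⟩)
  refine ⟨∑ q : GK i₀ ⧸ HK ha, jN hD hv (iota_sq' hi ι) (dt e (a (sec (HK ha) q)))
    (P (ι.comp (gh (sec (HK ha) q)))), fun τ g hc => ?_⟩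
  have hcg : (lh τ).comp ι = ι.comp (gh g) := AlgHom.ext hc
  have ha1 : ∀ q : GK i₀ ⧸ HK ha, a (sec (HK ha) (g • q)) = a g + a (sec (HK ha) q) := by
    intro q
    have h1 := (mem_HK ha _).1 (mem_H (sec_spec (HK ha)) g q)
    have h2 : g * sec (HK ha) q = sec (HK ha) (g • q) *
      ((sec (HK ha) (g • q))⁻¹ * g * sec (HK ha) q) := by group
    rw [← ha, h2, ha, h1, add_zero]
  have e1 : ∑ q : GK i₀ ⧸ HK ha, jN hD hv (iota_sq' hi ι) (dt e (a (sec (HK ha) q)))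
      (P (ι.comp (gh (sec (HK ha) q)))) =
      ∑ q : GK i₀ ⧸ HK ha, jN hD hv (iota_sq' hi ι) (dt e (a (sec (HK ha) (g • q))))
        (P (ι.comp (gh (sec (HK ha) (g • q))))) :=
    (Equiv.sum_comp (MulAction.toPerm g : Equiv.Perm (GK i₀ ⧸ HK ha)) (fun q =>
      jN hD hv (iota_sq' hi ι) (dt e (a (sec (HK ha) q))) (P (ι.comp (gh (sec (HK ha) q)))))).symm
  conv_rhs => rw [sub_eq_add_neg]; arg 2; rw [e1]
  rw [← sub_eq_add_neg, map_sum, jN_sum, ← Finset.sum_sub_distrib]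
  unfold Co cor
  rw [map_sum]
  refine Finset.sum_congr rfl fun q _ => ?_
  have h1 : (1 : GK i₀ →* ℤ) (sec (HK ha) (g • q)) = 1 := rfl
  rw [h1, one_smul, Ac_apply, ac_jN hD hu hi ι hv (iota_sq' hi ι) rfl]
  have h2 := hP τ (ι.comp (gh (sec (HK ha) q))) (ι.comp (gh (sec (HK ha) (g • q)))) _
    (mem_H (sec_spec (HK ha)) g q) (by
      show (lh τ).comp (ι.comp (gh (sec (HK ha) q))) =
        (ι.comp (gh (sec (HK ha) (g • q)))).comp (gh _)
      rw [← AlgHom.comp_assoc, hcg]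
      apply AlgHom.ext
      intro x
      show ι (g (sec (HK ha) q x)) = ι (sec (HK ha) (g • q) (((sec (HK ha) (g • q))⁻¹ * g *
        sec (HK ha) q) x))
      rw [← AlgEquiv.mul_apply, ← AlgEquiv.mul_apply]
      congr 2
      group)
  have h3 : ac D (ι.comp (gh (sec (HK ha) (g • q))))
      (f ((sec (HK ha) (g • q))⁻¹ * g * sec (HK ha) q)) =
      ac D (lh τ) (P (ι.comp (gh (sec (HK ha) q)))) - P (ι.comp (gh (sec (HK ha) (g • q)))) := h2
  have h4 : ac D ι (ac D (gh (sec (HK ha) (g • q)))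
      (f ((sec (HK ha) (g • q))⁻¹ * g * sec (HK ha) q))) =
      ac D (ι.comp (gh (sec (HK ha) (g • q))))
      (f ((sec (HK ha) (g • q))⁻¹ * g * sec (HK ha) q)) :=
    Pool.Agent.TH841.SH.act_act (EQ (WD D)) (gh (sec (HK ha) (g • q))) ι _
  rw [h4, h3, map_sub, ac_jN hD hv (iota_sq' hi ι) (lh τ) hv (iota_sq' hi ι) hc.fix, jN_jN, ha1,
    dt_add]

include ha hD hu in
/-- **The corestriction theorem.** -/
theorem core {b : GK i₀ → ZMod 3} (hb : ∀ σ : GK i₀, σ u = i₀ ^ (-b σ).val * u)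
    (hf : ∀ σ τ, a σ = 0 → a τ = 0 → f (σ * τ) = f σ + ac D (gh σ) (f τ))
    (hnb : {σ : GK i₀ | a σ = 0 ∧ f σ = 0} ∈ nhds (1 : GK i₀))
    (hloc : ∀ (p : ℕ) [Fact p.Prime] (ι : QB →ₐ[ℚ] PadicAlgCl p), ∃ R : PD D (PadicAlgCl p),
      ∀ (τ : Au p) (σ : GK i₀), a σ = 0 → Cmp ι τ σ → ac D ι (f σ) = ac D (lh τ) R - R)
    (hS : ∀ e : Fin k → ZMod 3, ShK hi (fun σ => dt e (a σ) + b σ)) (n : ℕ)
    (hP : ∃ P, ∀ σ, a σ = 0 → 3 ^ n • f σ = ac D (gh σ) P - P) :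
    ∃ P, ∀ σ, a σ = 0 → 3 ^ k • f σ = ac D (gh σ) P - P := by
  obtain ⟨P, hP⟩ := hP
  -- the action on the model
  have hact : ∀ (e : Fin k → ZMod 3) (σ : GK i₀) (Q : Pt QB),
      jN hD hu hi (dt e (a σ)) (ac D (gh σ) (Ph hD hu Q)) =
        Ph hD hu (act hi (fun σ => dt e (a σ) + b σ) σ Q) := by
    intro e σ Q
    rw [act_Ph hD hi hu hb, jN_Ph, act_def, jj_jj]
    rfl
  have h1 : ∀ e : Fin k → ZMod 3, ∃ Q, ∀ σ, Co hi ha hD hu f e σ =
      jN hD hu hi (dt e (a σ)) (ac D (gh σ) Q) - Q := by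
    intro e
    let f' : GK i₀ → Pt QB := fun σ => (Ph hD hu).symm (Co hi ha hD hu f e σ)
    have hf'' : ∀ σ, Ph hD hu (f' σ) = Co hi ha hD hu f e σ := fun σ =>
      (Ph hD hu).apply_symm_apply _
    have g1 : IsLocallyConstant f' := (Co_lc hi ha hD hu hf hnb e).comp _
    have g2 : ∀ σ τ, f' (σ * τ) = f' σ + act hi (fun σ => dt e (a σ) + b σ) σ (f' τ) := by
      intro σ τ
      apply (Ph hD hu).injective
      rw [map_add, hf'', hf'', ← hact, hf'']
      exact Co_coc hi ha hD hu hf e σ τ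
    have g3 : ∀ (p : ℕ) [Fact p.Prime] (ι : QB →ₐ[ℚ] PadicAlgCl p), ∃ R : Pt (PadicAlgCl p),
        ∀ (τ : Au p) (σ : GK i₀), Cmp ι τ σ →
          pm ι (f' σ) = jj (iota_sq' hi ι) (dt e (a σ) + b σ) (pm (lh τ) R) - R := by
      intro p _ ι
      have hv : (ι u) ^ 3 = (D : PadicAlgCl p) := by rw [← map_pow, hu, map_intCast]
      obtain ⟨P0, hP0⟩ := Co_loc hi ha hD hu hf p (hloc p) ι hv e
      refine ⟨(Ph hD hv).symm P0, fun τ σ hcmp => ?_⟩
      apply (Ph hD hv).injective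
      rw [← ac_Ph hD hv ι hu rfl, hf'', map_sub, hP0 τ σ hcmp, ← jj_jj, ← jN_Ph,
        ← act_Ph_loc hD hi hb ι hv hcmp, AddEquiv.apply_symm_apply]
    have g4 : ∃ Q, ∀ σ, 3 ^ n • f' σ = act hi (fun σ => dt e (a σ) + b σ) σ Q - Q := by
      obtain ⟨Q, hQ⟩ := Co_cob hi ha hD hu (3 ^ n) hP e
      refine ⟨(Ph hD hu).symm Q, fun σ => ?_⟩
      apply (Ph hD hu).injective
      rw [map_nsmul, hf'', hQ, map_sub, ← hact, AddEquiv.apply_symm_apply]
    obtain ⟨R, hR⟩ := hS e n f' g1 g2 g3 g4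
    refine ⟨Ph hD hu R, fun σ => ?_⟩
    rw [← hf'', hR, map_sub, hact]
  choose Q hQ using h1
  refine ⟨∑ e, Q e, fun h hh => ?_⟩
  have hh' : h ∈ HK ha := (mem_HK ha h).2 hh
  have hq : ∀ q : GK i₀ ⧸ HK ha, h • q = q := by
    intro q
    induction q using QuotientGroup.induction_on with
    | H g =>
      change ((h * g : GK i₀) : GK i₀ ⧸ HK ha) = g
      rw [eq_comm, QuotientGroup.eq, ← mul_assoc]
      have := (inferInstance : (HK ha).Normal).conj_mem h hh' g⁻¹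
      rwa [inv_inv] at this
  have h2 : ∑ e : Fin k → ZMod 3, Co hi ha hD hu f e h = 3 ^ k • f h := by
    unfold Co cor
    rw [Finset.sum_comm, Finset.sum_eq_single ((1 : GK i₀) : GK i₀ ⧸ HK ha)]
    · have h3 : ∀ e : Fin k → ZMod 3,
          (1 : GK i₀ →* ℤ) (sec (HK ha) (h • ((1 : GK i₀) : GK i₀ ⧸ HK ha))) •
          Ac hi ha hD hu e (sec (HK ha) (h • ((1 : GK i₀) : GK i₀ ⧸ HK ha)))
            (f ((sec (HK ha) (h • ((1 : GK i₀) : GK i₀ ⧸ HK ha)))⁻¹ * h *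
              sec (HK ha) ((1 : GK i₀) : GK i₀ ⧸ HK ha))) = f h := by
        intro e
        rw [hq, sec_one, map_one, map_one, one_smul, inv_one, one_mul, mul_one]
        rfl
      rw [Finset.sum_congr rfl fun e _ => h3 e, Finset.sum_const, Finset.card_univ,
        Fintype.card_fun, ZMod.card, Fintype.card_fin]
    · intro q _ hq1
      have hne : a (sec (HK ha) q) ≠ 0 := by
        intro h0
        apply hq1
        rw [← sec_spec (HK ha) q, eq_comm, QuotientGroup.eq]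
        simpa using (mem_HK ha _).2 h0
      have h3 : ∀ e : Fin k → ZMod 3, (1 : GK i₀ →* ℤ) (sec (HK ha) (h • q)) •
          Ac hi ha hD hu e (sec (HK ha) (h • q))
            (f ((sec (HK ha) (h • q))⁻¹ * h * sec (HK ha) q)) =
          jN hD hu hi (dt e (a (sec (HK ha) q))) (ac D (gh (sec (HK ha) q))
            (f ((sec (HK ha) q)⁻¹ * h * sec (HK ha) q))) := by
        intro e
        have h4 : (1 : GK i₀ →* ℤ) (sec (HK ha) (h • q)) = 1 := rfl
        rw [h4, one_smul, hq]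
        rfl
      rw [Finset.sum_congr rfl fun e _ => h3 e]
      exact sum_dt hD hu hi hne _
    · intro h0
      exact absurd (Finset.mem_univ _) h0
  rw [← h2, map_sum, ← Finset.sum_sub_distrib]
  refine Finset.sum_congr rfl fun e _ => ?_
  rw [hQ, hh, dt_zero, jN_zero]

end core

end Q283.MS
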