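import Pool.Agent.Q283.MS.Sha
import Pool.Agent.Y703.CT.T1b
import Pool.Agent.Q283.MC.Tow

/-!
# The theorem on the Tate-Shafarevich groups
-/

set_option autoImplicit false
set_option linter.unusedSectionVars false
set_option linter.unusedVariables false

open scoped Classical

namespace Q283.MS

open WeierstrassCurve NumberField
open Pool.Agent.Y703.CT
open Pool.Agent.Y692.QS (Ei w nr toC)
open Pool.Agent.Y715.T.Gi Pool.Agent.Y715.T.Nr Pool.Agent.Y715.T.Df Pool.Agent.Y715.T.Ell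

/-- the group over `ℚ(ω)` -/
theorem shK_of {D : ℕ} (hC : Cls D) (hN : NoSplit D) {i₀ : QB} (hi : i₀ ^ 2 + i₀ + 1 = 0) {v : QB}
    {a : GK i₀ → ZMod 3} (hv : v ^ 3 = ((D : ℕ) : QB))
    (ha : ∀ σ : GK i₀, σ v = i₀ ^ (-a σ).val * v) : ShK hi a := by
  have hB := hC.1
  obtain ⟨n, π, e, hdt, hDp⟩ := Pool.Agent.Y274.CT.t_exi D hB
  have hcnt := Pool.Agent.Y274.CT.t_cnt D hC (Fin n) π e hdt hDp
  rw [Fintype.card_fin] at hcnt
  have : Nonempty (Fin n) := ⟨⟨0, by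
    have h1 : 0 < D.primeFactors.card := by
      rw [Finset.card_pos]
      obtain ⟨-, -, -, q, hq, -, hqD, -⟩ := hC
      exact ⟨q, Nat.mem_primeFactors.2 ⟨hq, hqD, hB.1⟩⟩
    omega⟩⟩
  have h9 := nr_nine hC hDp
  have hk : Ker π e := Pool.Agent.Y405.CT.cri Pool.Agent.Y350.CT.rec D hC hN (Fin n) π e hdt hDp
  have hev : ev i₀ hi ((D : ℕ) : Ei) = ((D : ℕ) : QB) := map_natCast _ _
  rcases hDp with h | h
  · have hT : Tw hi (pD π e) v a := ⟨by rw [hv, ← h, hev], ha⟩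
    exact (descK hdt hk h9 hT).1
  · have hT : Tw hi (pD π e) (-v) a := by
      refine ⟨?_, fun σ => ?_⟩
      · have h2 : pD π e = -((D : ℕ) : Ei) := by rw [h, neg_neg]
        rw [Odd.neg_pow (by decide), hv, h2, map_neg, hev]
      · rw [map_neg, ha σ]
        ring
    exact (descK hdt hk h9 hT).1

/-- the group over `ℚ(ω)`, for a number that differs from `D` by a cube -/
theorem shK_cube {D c M : ℕ} (hC : Cls D) (hN : NoSplit D) (hM : M = D * c ^ 3) (hc : c ≠ 0)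
    {i₀ : QB} (hi : i₀ ^ 2 + i₀ + 1 = 0) {v : QB}
    {a : GK i₀ → ZMod 3} (hv : v ^ 3 = ((M : ℕ) : QB))
    (ha : ∀ σ : GK i₀, σ v = i₀ ^ (-a σ).val * v) : ShK hi a := by
  have hc0 : ((c : ℕ) : QB) ≠ 0 := by exact_mod_cast hc
  refine shK_of hC hN hi (v := v / (c : QB)) ?_ fun σ => ?_
  · rw [div_pow, hv, hM]
    push_cast
    field_simp
  · rw [map_div₀, ha, map_natCast, mul_div_assoc]

/-- **The `3`-primary part of the Tate-Shafarevich group over `F` is killed by `3 ^ k`.** -/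
theorem sha_all {F : Type} [Field F] [NumberField F] {k : ℕ} {d : Fin k → ℕ} {t : Fin k → F}
    (hcube : ∀ j, t j ^ 3 = (d j : F))
    (hgen : IntermediateField.adjoin ℚ ({x : F | x ^ 3 = 1} ∪ Set.range t) = ⊤)
    {N : ℕ} (hN : N ≠ 0) (hd : ∀ j, d j ≠ 0) {D c : (Fin k → ZMod 3) → ℕ}
    (hDc : ∀ e, Q283.MC.tw N d e = D e * (c e) ^ 3) (hC : ∀ e, Cls (D e))
    (hS : ∀ e, NoSplit (D e))
    (n : ℕ) (x : Pool.Agent.TH841.NF.D.Sha ((EQ (WD (N : ℤ))).baseChange F))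
    (hx : 3 ^ n • x = 0) : 3 ^ k • x = 0 := by
  refine sha_kill hcube hgen hN hd ?_ n x hx
  intro i₀ hi ε v a hv ha
  have hc : c ε ≠ 0 := by
    intro h0
    have h1 := hDc ε
    rw [h0, zero_pow (by norm_num), mul_zero] at h1
    unfold Q283.MC.tw at h1
    rcases mul_eq_zero.1 h1 with h2 | h2
    · exact hN h2
    · obtain ⟨j, -, hj⟩ := Finset.prod_eq_zero_iff.1 h2
      exact hd j (eq_zero_of_pow_eq_zero hj)
  exact shK_cube (hC ε) (hS ε) (hDc ε) hc hi hv ha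

end Q283.MS
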